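import Pool.Agent.Helper14.CV.StA

/-!
# Module A4 of project CV: limits of the primitive at the cusps
-/

set_option autoImplicit false

open UpperHalfPlane CongruenceSubgroup Filter Topology
open scoped MatrixGroups ModularForm

namespace Pool.Agent.Helper26.CV

open Pool.Agent.Helper14.CV

open ConjAct Pointwise in
private lemma dec (N : ℕ) [NeZero N] (f : CuspForm (G0 N) 2) (γ : SL(2, ℤ)) :
    ∃ c > 0, ∃ C Y : ℝ, ∀ τ : ℍ, Y ≤ τ.im → ‖(⇑f ∣[(2 : ℤ)] γ) τ‖ ≤ C * Real.exp (-c * τ.im) := by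
  have : ((toConjAct (γ : GL (Fin 2) ℝ)⁻¹) • (G0 N)).IsArithmetic := by
    simpa [(show Rat.castHom ℝ = algebraMap ℚ ℝ by rfl), map_inv, Matrix.SpecialLinearGroup.map_mapGL]
      using! Subgroup.IsArithmetic.conj (G0 N) (Matrix.SpecialLinearGroup.mapGL ℚ γ)⁻¹
  obtain ⟨c, hc, hO⟩ := CuspFormClass.exp_decay_atImInfty' (CuspForm.translate f γ)
  obtain ⟨C, hC⟩ := hO.bound
  rw [atImInfty, Filter.eventually_comap] at hC
  obtain ⟨Y, hY⟩ := Filter.eventually_atTop.1 hC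
  refine ⟨c, hc, C, Y, fun τ hτ => ?_⟩
  have := hY τ.im hτ τ rfl
  rw [Real.norm_eq_abs, abs_of_pos (Real.exp_pos _)] at this
  exact this

private lemma slash_eq (N : ℕ) [NeZero N] (f : CuspForm (G0 N) 2) (γ : SL(2, ℤ)) (z : ℂ)
    (hz : 0 < z.im) :
    (⇑f ∣[(2 : ℤ)] γ) ⟨z, hz⟩ =
      fz f (((γ 0 0 : ℤ) * z + (γ 0 1 : ℤ)) / ((γ 1 0 : ℤ) * z + (γ 1 1 : ℤ))) *
        (((γ 1 0 : ℤ) * z + (γ 1 1 : ℤ)) ^ 2)⁻¹ := by
  have h1 := coe_specialLinearGroup_apply (R := ℤ) γ ⟨z, hz⟩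
  simp only [algebraMap_int_eq, eq_intCast, Complex.ofReal_intCast] at h1
  rw [ModularForm.SL_slash_apply]
  have h2 : denom (γ : GL (Fin 2) ℝ) z = ((γ 1 0 : ℤ) : ℂ) * z + ((γ 1 1 : ℤ) : ℂ) := by
    simp [denom]
  have h3 : fz f (((γ 0 0 : ℤ) * z + (γ 0 1 : ℤ)) / ((γ 1 0 : ℤ) * z + (γ 1 1 : ℤ))) =
      f (γ • (⟨z, hz⟩ : ℍ)) := by
    rw [fz]
    congr 1
    have h4 := UpperHalfPlane.ofComplex_apply (γ • (⟨z, hz⟩ : ℍ))
    rw [h1] at h4
    exact h4
  rw [h3]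
  have h5 : denom (γ : GL (Fin 2) ℝ) ((⟨z, hz⟩ : ℍ) : ℂ) = denom (γ : GL (Fin 2) ℝ) z := rfl
  rw [h5, h2, zpow_neg]
  norm_cast

private lemma den_ne {a b c d : ℤ} (h : 0 < a * d - b * c) {z : ℂ} (hz : 0 < z.im) :
    (c : ℂ) * z + d ≠ 0 := by
  intro h0
  have hi := congrArg Complex.im h0
  simp at hi
  have hr := congrArg Complex.re h0
  simp at hr
  rcases hi with hi | hi
  · subst hi
    simp at hr
    subst hr
    simp at h
  · exact hz.ne' hi

private lemma im_mob {a b c d : ℤ} (h : 0 < a * d - b * c) {z : ℂ} (hz : 0 < z.im) :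
    0 < (((a : ℂ) * z + b) / ((c : ℂ) * z + d)).im := by
  have hne := den_ne h hz
  rw [Complex.div_im]
  have hn : 0 < Complex.normSq ((c : ℂ) * z + d) := Complex.normSq_pos.2 hne
  rw [← sub_div]
  apply div_pos _ hn
  have hR : (0 : ℝ) < a * d - b * c := by exact_mod_cast h
  have : ((a : ℂ) * z + b).im * ((c : ℂ) * z + d).re - ((a : ℂ) * z + b).re * ((c : ℂ) * z + d).im
      = (a * d - b * c) * z.im := by
    simp
    ring
  rw [this]
  positivity

private lemma hder (h1 : StA1) (N : ℕ) [NeZero N] (f : CuspForm (G0 N) 2) (γ : SL(2, ℤ)) (z : ℂ)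
    (hz : 0 < z.im) :
    HasDerivAt (fun z : ℂ => Fp f (((γ 0 0 : ℤ) * z + (γ 0 1 : ℤ)) /
      ((γ 1 0 : ℤ) * z + (γ 1 1 : ℤ))))
      (2 * Real.pi * Complex.I * (⇑f ∣[(2 : ℤ)] γ) ⟨z, hz⟩) z := by
  have hdet : γ 0 0 * γ 1 1 - γ 0 1 * γ 1 0 = 1 := by
    have := γ.det_coe
    rwa [Matrix.det_fin_two] at this
  have hpos : 0 < γ 0 0 * γ 1 1 - γ 0 1 * γ 1 0 := by rw [hdet]; norm_num
  have hne := den_ne hpos hz
  have him := im_mob hpos hz
  have hA := (h1 N inferInstance f _ him).2.2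
  have hn : HasDerivAt (fun z : ℂ => ((γ 0 0 : ℤ) : ℂ) * z + ((γ 0 1 : ℤ) : ℂ))
      ((γ 0 0 : ℤ) : ℂ) z := by
    simpa using! ((hasDerivAt_id z).const_mul ((γ 0 0 : ℤ) : ℂ)).add_const ((γ 0 1 : ℤ) : ℂ)
  have hd : HasDerivAt (fun z : ℂ => ((γ 1 0 : ℤ) : ℂ) * z + ((γ 1 1 : ℤ) : ℂ))
      ((γ 1 0 : ℤ) : ℂ) z := by
    simpa using! ((hasDerivAt_id z).const_mul ((γ 1 0 : ℤ) : ℂ)).add_const ((γ 1 1 : ℤ) : ℂ)
  have hq := hn.div hd hne
  have hC : ((γ 0 0 : ℤ) : ℂ) * ((γ 1 1 : ℤ) : ℂ) - ((γ 0 1 : ℤ) : ℂ) * ((γ 1 0 : ℤ) : ℂ) = 1 := by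
    exact_mod_cast hdet
  have hc := HasDerivAt.comp z hA hq
  refine hc.congr_deriv ?_
  rw [slash_eq]
  have : ((((γ 0 0 : ℤ) : ℂ) * (((γ 1 0 : ℤ) : ℂ) * z + ((γ 1 1 : ℤ) : ℂ)) -
      (((γ 0 0 : ℤ) : ℂ) * z + ((γ 0 1 : ℤ) : ℂ)) * ((γ 1 0 : ℤ) : ℂ))) = 1 := by
    rw [← hC]; ring
  rw [this]
  ring

private lemma lim1 (h1 : StA1) (N : ℕ) [NeZero N] (f : CuspForm (G0 N) 2) (γ : SL(2, ℤ)) :
    ∃ L : ℂ, ∀ x : ℝ, Tendsto (fun y : ℝ => Fp f (((γ 0 0 : ℤ) * (x + y * Complex.I) +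
      (γ 0 1 : ℤ)) / ((γ 1 0 : ℤ) * (x + y * Complex.I) + (γ 1 1 : ℤ)))) atTop (𝓝 L) := by
  obtain ⟨c, hc, C, Y, hb⟩ := dec N f γ
  set H : ℂ → ℂ := fun z : ℂ => Fp f (((γ 0 0 : ℤ) * z + (γ 0 1 : ℤ)) /
      ((γ 1 0 : ℤ) * z + (γ 1 1 : ℤ))) with hH
  set K : ℝ := 2 * Real.pi * C with hK
  have hb' : ∀ (z : ℂ) (hz : 0 < z.im), Y ≤ z.im →
      ‖2 * Real.pi * Complex.I * (⇑f ∣[(2 : ℤ)] γ) ⟨z, hz⟩‖ ≤ K * Real.exp (-c * z.im) := by
    intro z hz hY
    have := hb ⟨z, hz⟩ hY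
    rw [norm_mul]
    have h2 : ‖(2 * Real.pi * Complex.I : ℂ)‖ = 2 * Real.pi := by
      simp [abs_of_pos Real.pi_pos]
    rw [h2, hK, mul_assoc (2 * Real.pi) C]
    exact mul_le_mul_of_nonneg_left this (mul_nonneg zero_le_two Real.pi_pos.le)
  set Y1 : ℝ := max Y 0 with hY1
  -- existence of the limit for every x
  have hex : ∀ x : ℝ, ∃ L : ℂ, Tendsto (fun y : ℝ => H (x + y * Complex.I)) atTop (𝓝 L) := by
    intro x
    have hd : ∀ y ∈ Set.Ioi Y1, HasDerivAt (fun y : ℝ => H (x + y * Complex.I))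
        (deriv (fun y : ℝ => H (x + y * Complex.I)) y) y ∧
        ‖deriv (fun y : ℝ => H (x + y * Complex.I)) y‖ ≤ K * Real.exp (-c * y) := by
      intro y hy
      have hy0 : 0 < y := lt_of_le_of_lt (le_max_right _ _) hy
      have hyY : Y ≤ y := (le_max_left _ _).trans (le_of_lt hy)
      have hz : 0 < ((x : ℂ) + y * Complex.I).im := by simpa using hy0
      have h2 := hder h1 N f γ _ hz
      have h3 : HasDerivAt (fun y : ℝ => (x : ℂ) + y * Complex.I) Complex.I y := by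
        have := ((Complex.ofRealCLM.hasDerivAt (x := y)).mul_const Complex.I).const_add (x : ℂ)
        simpa using! this
      have h4 := h2.comp y h3
      have h5 : HasDerivAt (fun y : ℝ => H (x + y * Complex.I)) _ y := h4
      refine ⟨h5.differentiableAt.hasDerivAt, ?_⟩
      rw [h5.deriv, norm_mul, Complex.norm_I, mul_one]
      have h6 := hb' _ hz (by simpa using hyY)
      simpa using! h6
    refine ⟨_, MeasureTheory.tendsto_limUnder_of_hasDerivAt_of_integrableOn_Ioi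
      (fun y hy => (hd y hy).1) ?_⟩
    have hI := (exp_neg_integrableOn_Ioi Y1 hc).const_mul K
    refine MeasureTheory.Integrable.mono' hI ?_ ?_
    · exact (stronglyMeasurable_deriv _).aestronglyMeasurable
    · rw [MeasureTheory.ae_restrict_iff' measurableSet_Ioi]
      exact Filter.Eventually.of_forall fun y hy => (hd y hy).2
  -- independence of x
  obtain ⟨L, hL⟩ := hex 0
  refine ⟨L, fun x => ?_⟩
  have hdiff : Tendsto (fun y : ℝ => H (x + y * Complex.I) - H ((0 : ℝ) + y * Complex.I)) atTop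
      (𝓝 0) := by
    rw [tendsto_zero_iff_norm_tendsto_zero]
    have hg : Tendsto (fun y : ℝ => K * Real.exp (-c * y) * ‖(x : ℂ)‖) atTop (𝓝 0) := by
      have : Tendsto (fun y : ℝ => Real.exp (-c * y)) atTop (𝓝 0) := by
        apply Real.tendsto_exp_atBot.comp
        exact tendsto_id.const_mul_atTop_of_neg (by linarith)
      simpa using (this.const_mul K).mul_const ‖(x : ℂ)‖
    refine squeeze_zero' (Filter.Eventually.of_forall fun _ => norm_nonneg _) ?_ hg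
    filter_upwards [eventually_gt_atTop Y1] with y hy
    have hy0 : 0 < y := lt_of_le_of_lt (le_max_right _ _) hy
    have hyY : Y ≤ y := (le_max_left _ _).trans (le_of_lt hy)
    have hcv : Convex ℝ {z : ℂ | z.im = y} := by
      intro u hu v hv a b _ _ hab
      simp only [Set.mem_ofPred_eq] at hu hv ⊢
      simp [hu, hv, ← add_mul, hab]
    have h7 := Convex.norm_image_sub_le_of_norm_hasDerivWithin_le (𝕜 := ℂ) (f := H)
      (f' := fun z => deriv H z) (C := K * Real.exp (-c * y)) (s := {z : ℂ | z.im = y})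
      (x := ((0 : ℝ) : ℂ) + y * Complex.I) (y := (x : ℂ) + y * Complex.I) ?_ ?_ hcv ?_ ?_
    · refine h7.trans (le_of_eq ?_)
      congr 2
      simp
    · intro z hz
      simp only [Set.mem_ofPred_eq] at hz
      have h2 := hder h1 N f γ z (by rw [hz]; exact hy0)
      exact (h2.differentiableAt.hasDerivAt).hasDerivWithinAt
    · intro z hz
      simp only [Set.mem_ofPred_eq] at hz
      have h2 := hder h1 N f γ z (by rw [hz]; exact hy0)
      have h8 := hb' z (by rw [hz]; exact hy0) (by rw [hz]; exact hyY)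
      rw [h2.deriv]
      refine h8.trans (le_of_eq ?_)
      rw [hz]
    · simp
    · simp
  have := hdiff.add hL
  simp only [zero_add] at this
  refine this.congr fun y => ?_
  rw [sub_add_cancel]

private lemma lim2 (h1 : StA1) (N : ℕ) [NeZero N] (f : CuspForm (G0 N) 2) (a c : ℤ) :
    ∃ L : ℂ, ∀ b d : ℤ, 0 < a * d - b * c → ∀ x : ℝ,
      Tendsto (fun y : ℝ => Fp f ((a * (x + y * Complex.I) + b) /
        (c * (x + y * Complex.I) + d))) atTop (𝓝 L) := by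
  by_cases hg0 : Int.gcd a c = 0
  · rw [Int.gcd_eq_zero_iff] at hg0
    obtain ⟨rfl, rfl⟩ := hg0
    refine ⟨0, fun b d h => ?_⟩
    simp at h
  set g : ℤ := (Int.gcd a c : ℤ) with hg
  have hgpos : 0 < g := by
    rw [hg]
    exact_mod_cast Nat.pos_of_ne_zero hg0
  obtain ⟨a', ha'⟩ : g ∣ a := Int.gcd_dvd_left a c
  obtain ⟨c', hc'⟩ : g ∣ c := Int.gcd_dvd_right a c
  set u : ℤ := Int.gcdA a c with hu
  set v : ℤ := Int.gcdB a c with hv
  have hbez : g = a * u + c * v := Int.gcd_eq_gcd_ab a c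
  have hone : a' * u + c' * v = 1 := by
    have : g * (a' * u + c' * v) = g * 1 := by
      rw [mul_one]
      conv_rhs => rw [hbez, ha', hc']
      ring
    exact mul_left_cancel₀ hgpos.ne' this
  have hdet : (!![a', -v; c', u] : Matrix (Fin 2) (Fin 2) ℤ).det = 1 := by
    rw [Matrix.det_fin_two_of]
    linarith
  obtain ⟨L, hL⟩ := lim1 h1 N f ⟨!![a', -v; c', u], hdet⟩
  simp at hL
  refine ⟨L, fun b d hD x => ?_⟩
  have hδ : 0 < a' * d - c' * b := by
    have : a * d - b * c = g * (a' * d - c' * b) := by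
      conv_lhs => rw [ha', hc']
      ring
    rw [this] at hD
    exact (mul_pos_iff_of_pos_left hgpos).1 hD
  set δ : ℤ := a' * d - c' * b with hδd
  have hδR : (0 : ℝ) < δ := by exact_mod_cast hδ
  have hgR : (0 : ℝ) < g := by exact_mod_cast hgpos
  have hδC : (δ : ℂ) ≠ 0 := by exact_mod_cast hδ.ne'
  have hT : Tendsto (fun y : ℝ => (g : ℝ) / δ * y) atTop atTop :=
    tendsto_id.const_mul_atTop (div_pos hgR hδR)
  have h3 := (hL (((g : ℝ) * x + (u * b + v * d : ℤ)) / δ)).comp hT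
  refine h3.congr' ?_
  filter_upwards [eventually_gt_atTop (0 : ℝ)] with y hy
  simp only [Function.comp]
  congr 1
  have hz : 0 < ((x : ℂ) + y * Complex.I).im := by simpa using hy
  have hne := den_ne hD hz
  set z : ℂ := (x : ℂ) + y * Complex.I with hzd
  have hw : (((((g : ℝ) * x + (u * b + v * d : ℤ)) / δ : ℝ) : ℂ) +
      (((g : ℝ) / δ * y : ℝ) : ℂ) * Complex.I) = ((g : ℂ) * z + (u * b + v * d)) / δ := by
    rw [hzd]
    push_cast
    field_simp
    ring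
  rw [hw]
  have e1 : (a : ℂ) = g * a' := by exact_mod_cast ha'
  have e2 : (c : ℂ) = g * c' := by exact_mod_cast hc'
  have e3 : (a' : ℂ) * u + c' * v = 1 := by exact_mod_cast hone
  have e4 : (δ : ℂ) = a' * d - c' * b := by rw [hδd]; push_cast; ring
  have n1 : (a' : ℂ) * (((g : ℂ) * z + (u * b + v * d)) / δ) + -v = (a * z + b) / δ := by
    rw [eq_div_iff hδC, add_mul, mul_assoc, div_mul_cancel₀ _ hδC, e1, e4]
    linear_combination (b : ℂ) * e3
  have n2 : (c' : ℂ) * (((g : ℂ) * z + (u * b + v * d)) / δ) + u = (c * z + d) / δ := by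
    rw [eq_div_iff hδC, add_mul, mul_assoc, div_mul_cancel₀ _ hδC, e2, e4]
    linear_combination (d : ℂ) * e3
  rw [n1, n2]
  field_simp

theorem hA4 (h1 : StA1) (h1b : StA1b) (_h3 : StA3) : StA4 := by
  intro N hN f
  choose G hG using fun a c => lim2 h1 N f a c
  refine ⟨G, fun a b c d h x => hG a c b d h x, ?_⟩
  have h2 := hG 1 0 0 1 (by norm_num) 0
  obtain ⟨C, hC⟩ := h1b N hN f
  have h3 : Tendsto (fun y : ℝ => Fp f ((((1 : ℤ) : ℂ) * (((0 : ℝ) : ℂ) + y * Complex.I) +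
      ((0 : ℤ) : ℂ)) / (((0 : ℤ) : ℂ) * (((0 : ℝ) : ℂ) + y * Complex.I) + ((1 : ℤ) : ℂ))))
      atTop (𝓝 0) := by
    rw [tendsto_zero_iff_norm_tendsto_zero]
    have hg : Tendsto (fun y : ℝ => C * Real.exp (-2 * Real.pi * y)) atTop (𝓝 0) := by
      have : Tendsto (fun y : ℝ => Real.exp (-2 * Real.pi * y)) atTop (𝓝 0) := by
        apply Real.tendsto_exp_atBot.comp
        exact tendsto_id.const_mul_atTop_of_neg (by nlinarith [Real.pi_pos])
      simpa using this.const_mul C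
    refine squeeze_zero' (Filter.Eventually.of_forall fun _ => norm_nonneg _) ?_ hg
    filter_upwards [eventually_ge_atTop (1 : ℝ)] with y hy
    have := hC ((y : ℂ) * Complex.I) (by simpa using hy)
    simpa using this
  exact tendsto_nhds_unique h2 h3

end Pool.Agent.Helper26.CV
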