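import Pool.Agent.Helper14.CV.StD

/-!
# Module GRP of project CV: group laws of the operators
-/

set_option autoImplicit false

namespace Pool.Agent.Helper26.CV

open Pool.Agent.Helper14.CV

private lemma unit4 (s : ℕ) (t : ZMod (2 ^ s)) : IsUnit (1 + 4 * t) := by
  have h2 : (2 : ZMod (2 ^ s)) ^ s = 0 := by
    have := ZMod.natCast_self (2 ^ s)
    push_cast at this
    exact this
  have hn : IsNilpotent (4 * t) := by
    refine ⟨s, ?_⟩
    have : (4 : ZMod (2 ^ s)) * t = 2 * (2 * t) := by ring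
    rw [this, mul_pow, h2, zero_mul]
  exact hn.isUnit_one_add

private lemma key (s : ℕ) (z w : ℤ) (y : ZMod (2 ^ s)) :
    y * (1 + 4 * (z : ZMod (2 ^ s)) * y)⁻¹ *
      (1 + 4 * (w : ZMod (2 ^ s)) * (y * (1 + 4 * (z : ZMod (2 ^ s)) * y)⁻¹))⁻¹ =
      y * (1 + 4 * ((z + w : ℤ) : ZMod (2 ^ s)) * y)⁻¹ := by
  have hu : IsUnit (1 + 4 * (z : ZMod (2 ^ s)) * y) := by
    rw [mul_assoc]; exact unit4 s _
  have hv : IsUnit (1 + 4 * (w : ZMod (2 ^ s)) * (y * (1 + 4 * (z : ZMod (2 ^ s)) * y)⁻¹)) := by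
    rw [mul_assoc]; exact unit4 s _
  have ht : IsUnit (1 + 4 * ((z + w : ℤ) : ZMod (2 ^ s)) * y) := by
    rw [mul_assoc]; exact unit4 s _
  set u := 1 + 4 * (z : ZMod (2 ^ s)) * y with hud
  set v := 1 + 4 * (w : ZMod (2 ^ s)) * (y * u⁻¹) with hvd
  set t := 1 + 4 * ((z + w : ℤ) : ZMod (2 ^ s)) * y with htd
  have eu := ZMod.mul_inv_of_unit u hu
  have ev := ZMod.mul_inv_of_unit v hv
  have et := ZMod.mul_inv_of_unit t ht
  have huv : u * v = t := by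
    rw [hvd, htd]
    push_cast
    have : u * (1 + 4 * (w : ZMod (2 ^ s)) * (y * u⁻¹)) =
        u + 4 * w * y * (u * u⁻¹) := by ring
    rw [this, eu, hud]
    ring
  apply ht.mul_left_cancel
  have e1 : t * (y * u⁻¹ * v⁻¹) = y * ((u * u⁻¹) * (v * v⁻¹)) := by rw [← huv]; ring
  have e2 : t * (y * t⁻¹) = y * (t * t⁻¹) := by ring
  rw [e1, e2, eu, ev, et]
  ring

private lemma lawA (r s : ℕ) (z w : ℤ) :
    (opA z * opA w : Module.End (ZMod 2) (Fn (2 ^ r) (2 ^ s))) = opA (z + w) := by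
  refine LinearMap.ext fun F => ?_
  funext x y
  change F (x + z + w) (y * (1 + 4 * z * y)⁻¹ * (1 + 4 * w * (y * (1 + 4 * z * y)⁻¹))⁻¹) =
    F (x + ((z + w : ℤ) : ZMod (2 ^ r))) (y * (1 + 4 * ((z + w : ℤ) : ZMod (2 ^ s)) * y)⁻¹)
  rw [key]
  congr 1
  push_cast
  ring

private lemma lawB (r s : ℕ) (z w : ℤ) :
    (opB z * opB w : Module.End (ZMod 2) (Fn (2 ^ r) (2 ^ s))) = opB (z + w) := by
  refine LinearMap.ext fun F => ?_
  funext x y
  change F (x * (1 + 4 * z * x)⁻¹ * (1 + 4 * w * (x * (1 + 4 * z * x)⁻¹))⁻¹) (y + z + w) =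
    F (x * (1 + 4 * ((z + w : ℤ) : ZMod (2 ^ r)) * x)⁻¹) (y + ((z + w : ℤ) : ZMod (2 ^ s)))
  rw [key]
  congr 1
  push_cast
  ring

private lemma oneA (r s : ℕ) : (opA 0 : Module.End (ZMod 2) (Fn (2 ^ r) (2 ^ s))) = 1 := by
  refine LinearMap.ext fun F => ?_
  funext x y
  change F (x + ((0 : ℤ) : ZMod (2 ^ r))) (y * (1 + 4 * ((0 : ℤ) : ZMod (2 ^ s)) * y)⁻¹) = F x y
  simp [ZMod.inv_one]

private lemma oneB (r s : ℕ) : (opB 0 : Module.End (ZMod 2) (Fn (2 ^ r) (2 ^ s))) = 1 := by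
  refine LinearMap.ext fun F => ?_
  funext x y
  change F (x * (1 + 4 * ((0 : ℤ) : ZMod (2 ^ r)) * x)⁻¹) (y + ((0 : ℤ) : ZMod (2 ^ s))) = F x y
  simp [ZMod.inv_one]

theorem hGrp : StGrp := by
  intro r s
  refine ⟨lawA r s, lawB r s, oneA r s, oneB r s, ?_, ?_⟩
  · rw [opC, opC', mul_assoc, ← mul_assoc (opA (-1)), lawA]
    norm_num
    rw [oneA, one_mul, lawB]
    norm_num
    exact oneB r s
  · rw [opC, opC', mul_assoc, ← mul_assoc (opB (-1)), lawB]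
    norm_num
    rw [oneB, one_mul, lawA]
    norm_num
    exact oneA r s

end Pool.Agent.Helper26.CV
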